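import Pool.Agent.Work.MP_fe1501_st.Interface

/-!
# Sphere twists: block AVO
-/

set_option autoImplicit false

open Set
open scoped ContDiff

namespace Pool.Agent.Work.MP_fe1501_st

theorem p_AVO : S_AVO := by
  intro A hA
  obtain ⟨hs, ho⟩ := hA
  obtain ⟨F, hFdef⟩ : ∃ F : ℝ × ℝ → (Fin 3 → ℝ), ∀ p i, F p i = p.2 * A p.1 0 i :=
    ⟨fun p i => p.2 * A p.1 0 i, fun _ _ => rfl⟩
  have hF : ContDiff ℝ 1 F := by
    rw [contDiff_pi]
    intro i
    have h1 : ContDiff ℝ 1 (fun c => A c 0 i) := (hs 0 i).of_le (by exact_mod_cast le_top)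
    have h2 : (fun p : ℝ × ℝ => F p i) = fun p => p.2 * A p.1 0 i := funext fun p => hFdef p i
    rw [h2]
    exact contDiff_snd.mul (h1.comp contDiff_fst)
  have hd : Dense (Set.range F)ᶜ := by
    refine hF.dense_compl_range_of_finrank_lt_finrank ?_
    rw [Module.finrank_prod, Module.finrank_self, Module.finrank_fin_fun]
    norm_num
  obtain ⟨w, hw⟩ := hd.nonempty
  have hw' : ∀ c r : ℝ, ¬ (w 0 = r * A c 0 0 ∧ w 1 = r * A c 0 1 ∧ w 2 = r * A c 0 2) := by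
    rintro c r ⟨h0, h1, h2⟩
    apply hw
    refine ⟨(c, r), ?_⟩
    funext i
    rw [hFdef]
    fin_cases i
    · exact h0.symm
    · exact h1.symm
    · exact h2.symm
  have hN : 0 < w 0 ^ 2 + w 1 ^ 2 + w 2 ^ 2 := by
    by_contra hcon
    have h0 : w 0 = 0 := by nlinarith [sq_nonneg (w 0), sq_nonneg (w 1), sq_nonneg (w 2)]
    have h1 : w 1 = 0 := by nlinarith [sq_nonneg (w 0), sq_nonneg (w 1), sq_nonneg (w 2)]
    have h2 : w 2 = 0 := by nlinarith [sq_nonneg (w 0), sq_nonneg (w 1), sq_nonneg (w 2)]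
    exact hw' 0 0 ⟨by rw [h0, zero_mul], by rw [h1, zero_mul], by rw [h2, zero_mul]⟩
  obtain ⟨s, hs0, hs2⟩ : ∃ s : ℝ, 0 < s ∧ s ^ 2 = w 0 ^ 2 + w 1 ^ 2 + w 2 ^ 2 :=
    ⟨Real.sqrt _, Real.sqrt_pos.2 hN, Real.sq_sqrt hN.le⟩
  refine ⟨fun i => w i / s, ?_, ?_⟩
  · field_simp
    linarith
  · intro c
    have hrow : A c 0 0 ^ 2 + A c 0 1 ^ 2 + A c 0 2 ^ 2 = 1 := by
      have h3 : A c * (A c).transpose = 1 := mul_eq_one_comm.1 (ho c).1
      have h4 := congrFun (congrFun h3 0) 0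
      simp only [Matrix.mul_apply, Matrix.transpose_apply, Fin.sum_univ_three,
        Matrix.one_apply_eq] at h4
      linarith
    by_contra hcon
    push Not at hcon
    obtain ⟨d, hdd⟩ : ∃ d, d = A c 0 0 * w 0 + A c 0 1 * w 1 + A c 0 2 * w 2 := ⟨_, rfl⟩
    have h5 : A c 0 0 * (w 0 / s) + A c 0 1 * (w 1 / s) + A c 0 2 * (w 2 / s) = d / s := by
      rw [hdd]; ring
    rw [h5, div_pow, le_div_iff₀ (by positivity), one_mul] at hcon
    have key : (w 0 - d * A c 0 0) ^ 2 + (w 1 - d * A c 0 1) ^ 2 + (w 2 - d * A c 0 2) ^ 2 =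
        s ^ 2 - d ^ 2 := by
      have h6 : (w 0 - d * A c 0 0) ^ 2 + (w 1 - d * A c 0 1) ^ 2 + (w 2 - d * A c 0 2) ^ 2 =
          (w 0 ^ 2 + w 1 ^ 2 + w 2 ^ 2) -
            2 * d * (A c 0 0 * w 0 + A c 0 1 * w 1 + A c 0 2 * w 2) +
            d ^ 2 * (A c 0 0 ^ 2 + A c 0 1 ^ 2 + A c 0 2 ^ 2) := by ring
      rw [h6, ← hs2, ← hdd, hrow]
      ring
    refine hw' c d ⟨?_, ?_, ?_⟩
    · nlinarith [sq_nonneg (w 0 - d * A c 0 0), sq_nonneg (w 1 - d * A c 0 1),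
        sq_nonneg (w 2 - d * A c 0 2)]
    · nlinarith [sq_nonneg (w 0 - d * A c 0 0), sq_nonneg (w 1 - d * A c 0 1),
        sq_nonneg (w 2 - d * A c 0 2)]
    · nlinarith [sq_nonneg (w 0 - d * A c 0 0), sq_nonneg (w 1 - d * A c 0 1),
        sq_nonneg (w 2 - d * A c 0 2)]

end Pool.Agent.Work.MP_fe1501_st
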