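import Pool.Agent.Work.MP_fe1501_st.Interface

/-! Block COM: `R1 α R3 β R1 γ` is one commutator. -/

set_option autoImplicit false

open Set
open scoped ContDiff

namespace Pool.Agent.Work.MP_fe1501_st

open Pool.Agent.Work.MP_fe1501_h42

namespace COM

theorem R1_add (s t : ℝ) : R1 s * R1 t = R1 (s + t) := by
  ext i j
  fin_cases i <;> fin_cases j <;>
    simp [R1, Matrix.mul_apply, Fin.sum_univ_three, Real.cos_add, Real.sin_add] <;> ring

theorem R3_add (s t : ℝ) : R3 s * R3 t = R3 (s + t) := by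
  ext i j
  fin_cases i <;> fin_cases j <;>
    simp [R3, Matrix.mul_apply, Fin.sum_univ_three, Real.cos_add, Real.sin_add] <;> ring

theorem R1_zero : R1 0 = 1 := by
  ext i j
  fin_cases i <;> fin_cases j <;> simp [R1]

theorem R3_zero : R3 0 = 1 := by
  ext i j
  fin_cases i <;> fin_cases j <;> simp [R3]

theorem R2_sq : R2 Real.pi * R2 Real.pi = 1 := by
  ext i j
  fin_cases i <;> fin_cases j <;> simp [R2, Matrix.mul_apply, Fin.sum_univ_three]

theorem R2_R1 (t : ℝ) : R2 Real.pi * R1 t = R1 (-t) * R2 Real.pi := by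
  ext i j
  fin_cases i <;> fin_cases j <;> simp [R1, R2, Matrix.mul_apply, Fin.sum_univ_three]

theorem R2_R3 (t : ℝ) : R2 Real.pi * R3 t = R3 (-t) * R2 Real.pi := by
  ext i j
  fin_cases i <;> fin_cases j <;> simp [R3, R2, Matrix.mul_apply, Fin.sum_univ_three]

end COM

open COM in
theorem p_COM (hGRP : S_GRP) : S_COM := by
  obtain ⟨hR, h2, hmul, hinv, -⟩ := hGRP
  intro α β γ hα hβ hγ
  have hs : ContDiff ℝ ∞ (fun c => (α c - γ c) / 2) := (hα.sub hγ).div_const 2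
  have hm : ContDiff ℝ ∞ (fun c => (α c + γ c) / 2) := (hα.add hγ).div_const 2
  have hb : ContDiff ℝ ∞ (fun c => β c / 2) := hβ.div_const 2
  obtain ⟨S, hSG, hS⟩ := (hR _ hs).1
  obtain ⟨Mg, hMG, hM⟩ := (hR _ hm).1
  obtain ⟨Bg, hBG, hB⟩ := (hR _ hb).2
  obtain ⟨P, hPG, hP⟩ := h2 Real.pi
  have iS : IsSph (fun c => R1 (-((α c - γ c) / 2))) S⁻¹ :=
    hinv _ _ _ hS (fun c => by rw [R1_add, neg_add_cancel, R1_zero])
  -- X = S (M B) S⁻¹, Y = S P S⁻¹
  have hX := hmul _ _ _ _ (hmul _ _ _ _ hS (hmul _ _ _ _ hM hB)) iS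
  have hY := hmul _ _ _ _ (hmul _ _ _ _ hS hP) iS
  have iX : IsSph (fun c => R1 ((α c - γ c) / 2) * (R3 (-(β c / 2)) * R1 (-((α c + γ c) / 2))) *
      R1 (-((α c - γ c) / 2))) (S * (Mg * Bg) * S⁻¹)⁻¹ := by
    refine hinv _ _ _ hX (fun c => ?_)
    have e1 : R1 (-((α c - γ c) / 2)) * R1 ((α c - γ c) / 2) = 1 := by
      rw [R1_add, neg_add_cancel, R1_zero]
    have e1' : R1 ((α c - γ c) / 2) * R1 (-((α c - γ c) / 2)) = 1 := by
      rw [R1_add, add_neg_cancel, R1_zero]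
    have e2 : R1 (-((α c + γ c) / 2)) * R1 ((α c + γ c) / 2) = 1 := by
      rw [R1_add, neg_add_cancel, R1_zero]
    have e3 : R3 (-(β c / 2)) * R3 (β c / 2) = 1 := by
      rw [R3_add, neg_add_cancel, R3_zero]
    calc R1 ((α c - γ c) / 2) * (R3 (-(β c / 2)) * R1 (-((α c + γ c) / 2))) *
          R1 (-((α c - γ c) / 2)) *
          (R1 ((α c - γ c) / 2) * (R1 ((α c + γ c) / 2) * R3 (β c / 2)) * R1 (-((α c - γ c) / 2)))
        = R1 ((α c - γ c) / 2) * (R3 (-(β c / 2)) * (R1 (-((α c + γ c) / 2)) *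
          (R1 (-((α c - γ c) / 2)) * R1 ((α c - γ c) / 2)) * R1 ((α c + γ c) / 2)) * R3 (β c / 2)) *
          R1 (-((α c - γ c) / 2)) := by simp only [Matrix.mul_assoc]
      _ = 1 := by rw [e1, Matrix.mul_one, e2, Matrix.mul_one, e3, Matrix.mul_one, e1']
  have iY : IsSph (fun c => R1 ((α c - γ c) / 2) * R2 Real.pi * R1 (-((α c - γ c) / 2)))
      (S * P * S⁻¹)⁻¹ := by
    refine hinv _ _ _ hY (fun c => ?_)
    have e1 : R1 (-((α c - γ c) / 2)) * R1 ((α c - γ c) / 2) = 1 := by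
      rw [R1_add, neg_add_cancel, R1_zero]
    have e1' : R1 ((α c - γ c) / 2) * R1 (-((α c - γ c) / 2)) = 1 := by
      rw [R1_add, add_neg_cancel, R1_zero]
    calc R1 ((α c - γ c) / 2) * R2 Real.pi * R1 (-((α c - γ c) / 2)) *
          (R1 ((α c - γ c) / 2) * R2 Real.pi * R1 (-((α c - γ c) / 2)))
        = R1 ((α c - γ c) / 2) * (R2 Real.pi * (R1 (-((α c - γ c) / 2)) * R1 ((α c - γ c) / 2)) *
          R2 Real.pi) * R1 (-((α c - γ c) / 2)) := by simp only [Matrix.mul_assoc]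
      _ = 1 := by rw [e1, Matrix.mul_one, R2_sq, Matrix.mul_one, e1']
  refine ⟨_, S * (Mg * Bg) * S⁻¹, S * P * S⁻¹, (hSG.mul (hMG.mul hBG)).mul hSG.inv,
    (hSG.mul hPG).mul hSG.inv, rfl, ?_⟩
  have hfin := hmul _ _ _ _ (hmul _ _ _ _ (hmul _ _ _ _ hX hY) iX) iY
  intro x
  rw [hfin x]
  congr 1
  set c := (x : E4) 0
  show R1 ((α c - γ c) / 2) * (R1 ((α c + γ c) / 2) * R3 (β c / 2)) * R1 (-((α c - γ c) / 2)) *
    (R1 ((α c - γ c) / 2) * R2 Real.pi * R1 (-((α c - γ c) / 2))) *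
    (R1 ((α c - γ c) / 2) * (R3 (-(β c / 2)) * R1 (-((α c + γ c) / 2))) *
      R1 (-((α c - γ c) / 2))) *
    (R1 ((α c - γ c) / 2) * R2 Real.pi * R1 (-((α c - γ c) / 2))) =
    R1 (α c) * R3 (β c) * R1 (γ c)
  have e1 : R1 (-((α c - γ c) / 2)) * R1 ((α c - γ c) / 2) = 1 := by
    rw [R1_add, neg_add_cancel, R1_zero]
  have e4 : R2 Real.pi * (R3 (-(β c / 2)) * R1 (-((α c + γ c) / 2))) * R2 Real.pi =
      R3 (β c / 2) * R1 ((α c + γ c) / 2) := by
    rw [← Matrix.mul_assoc, R2_R3, neg_neg, Matrix.mul_assoc (R3 _), R2_R1, neg_neg,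
      Matrix.mul_assoc, Matrix.mul_assoc, R2_sq, Matrix.mul_one]
  calc _ = R1 ((α c - γ c) / 2) * (R1 ((α c + γ c) / 2) * R3 (β c / 2)) *
      (R1 (-((α c - γ c) / 2)) * R1 ((α c - γ c) / 2)) * (R2 Real.pi *
      (R1 (-((α c - γ c) / 2)) * R1 ((α c - γ c) / 2)) * (R3 (-(β c / 2)) *
        R1 (-((α c + γ c) / 2))) * (R1 (-((α c - γ c) / 2)) * R1 ((α c - γ c) / 2)) *
        R2 Real.pi) * R1 (-((α c - γ c) / 2)) := by simp only [Matrix.mul_assoc]
    _ = R1 ((α c - γ c) / 2) * (R1 ((α c + γ c) / 2) * R3 (β c / 2)) *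
      (R3 (β c / 2) * R1 ((α c + γ c) / 2)) * R1 (-((α c - γ c) / 2)) := by
        rw [e1, Matrix.mul_one, Matrix.mul_one, Matrix.mul_one, e4]
    _ = (R1 ((α c - γ c) / 2) * R1 ((α c + γ c) / 2)) * (R3 (β c / 2) * R3 (β c / 2)) *
      (R1 ((α c + γ c) / 2) * R1 (-((α c - γ c) / 2))) := by simp only [Matrix.mul_assoc]
    _ = R1 (α c) * R3 (β c) * R1 (γ c) := by
        rw [R1_add, R3_add, R1_add, show (α c - γ c) / 2 + (α c + γ c) / 2 = α c by ring,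
          show β c / 2 + β c / 2 = β c by ring,
          show (α c + γ c) / 2 + -((α c - γ c) / 2) = γ c by ring]

end Pool.Agent.Work.MP_fe1501_st
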