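import Pool.Agent.Work.MP_fe1501_st.Interface

/-!
# Block EUL: Euler angles of a smooth path in `SO(3)`
-/

set_option autoImplicit false

open Set
open scoped ContDiff

namespace Pool.Agent.Work.MP_fe1501_st

namespace EUL

lemma r1a (s : ℝ) : R1 s * R1 (-s) = 1 := by
  have h := Real.sin_sq_add_cos_sq s
  ext i j
  fin_cases i <;> fin_cases j <;>
    simp [R1, Matrix.mul_apply, Fin.sum_univ_three] <;> nlinarith

lemma r1b (s : ℝ) : R1 (-s) * R1 s = 1 := by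
  simpa using r1a (-s)

lemma r3a (s : ℝ) : R3 s * R3 (-s) = 1 := by
  have h := Real.sin_sq_add_cos_sq s
  ext i j
  fin_cases i <;> fin_cases j <;>
    simp [R3, Matrix.mul_apply, Fin.sum_univ_three] <;> nlinarith

lemma r3b (s : ℝ) : R3 (-s) * R3 s = 1 := by
  simpa using r3a (-s)

lemma r1t (s : ℝ) : (R1 s).transpose = R1 (-s) := by
  ext i j
  fin_cases i <;> fin_cases j <;> simp [R1, Matrix.transpose_apply]

lemma r3t (s : ℝ) : (R3 s).transpose = R3 (-s) := by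
  ext i j
  fin_cases i <;> fin_cases j <;> simp [R3, Matrix.transpose_apply]

lemma r1d (s : ℝ) : (R1 s).det = 1 := by
  have h := Real.sin_sq_add_cos_sq s
  simp [R1, Matrix.det_fin_three]
  nlinarith

lemma r3d (s : ℝ) : (R3 s).det = 1 := by
  have h := Real.sin_sq_add_cos_sq s
  simp [R3, Matrix.det_fin_three]
  nlinarith

lemma r1p {α : ℝ → ℝ} (h : ContDiff ℝ ∞ α) : IsPath fun c => R1 (α c) := by
  refine ⟨fun i j => ?_, fun c => ⟨?_, r1d _⟩⟩
  · have hc : ContDiff ℝ ∞ fun c => Real.cos (α c) := h.cos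
    have hs : ContDiff ℝ ∞ fun c => Real.sin (α c) := h.sin
    fin_cases i <;> fin_cases j <;> simp [R1] <;>
      first
        | exact contDiff_const
        | exact hc
        | exact hs
        | exact hs.neg
  · rw [r1t, r1b]

lemma r3p {α : ℝ → ℝ} (h : ContDiff ℝ ∞ α) : IsPath fun c => R3 (α c) := by
  refine ⟨fun i j => ?_, fun c => ⟨?_, r3d _⟩⟩
  · have hc : ContDiff ℝ ∞ fun c => Real.cos (α c) := h.cos
    have hs : ContDiff ℝ ∞ fun c => Real.sin (α c) := h.sin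
    fin_cases i <;> fin_cases j <;> simp [R3] <;>
      first
        | exact contDiff_const
        | exact hc
        | exact hs
        | exact hs.neg
  · rw [r3t, r3b]

lemma mulp {A B : ℝ → M3} (hA : IsPath A) (hB : IsPath B) : IsPath fun c => A c * B c := by
  refine ⟨fun i j => ?_, fun c => ⟨?_, ?_⟩⟩
  · simp only [Matrix.mul_apply]
    exact ContDiff.sum fun k _ => (hA.1 i k).mul (hB.1 k j)
  · show (A c * B c).transpose * (A c * B c) = 1
    rw [Matrix.transpose_mul, Matrix.mul_assoc, ← Matrix.mul_assoc (A c).transpose, (hA.2 c).1,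
      Matrix.one_mul, (hB.2 c).1]
  · show (A c * B c).det = 1
    rw [Matrix.det_mul, (hA.2 c).2, (hB.2 c).2, one_mul]

/-- the first column of `R1 a * R3 b` -/
lemma col (a b : ℝ) : (R1 a * R3 b) 0 0 = Real.cos b ∧ (R1 a * R3 b) 1 0 = Real.cos a * Real.sin b ∧
    (R1 a * R3 b) 2 0 = Real.sin a * Real.sin b := by
  simp [R1, R3, Matrix.mul_apply, Fin.sum_univ_three]

/-- spherical coordinates of one unit vector -/
lemma sph (x y z : ℝ) (h : x ^ 2 + y ^ 2 + z ^ 2 = 1) :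
    ∃ p q : ℝ, x = Real.cos q ∧ y = Real.cos p * Real.sin q ∧ z = Real.sin p * Real.sin q := by
  have hx : x ^ 2 ≤ 1 := by nlinarith [sq_nonneg y, sq_nonneg z]
  have h1 : -1 ≤ x := by nlinarith
  have h2 : x ≤ 1 := by nlinarith
  have hn : ‖(⟨y, z⟩ : ℂ)‖ = Real.sqrt (1 - x ^ 2) := by
    rw [Complex.norm_eq_sqrt_sq_add_sq]
    congr 1
    show y ^ 2 + z ^ 2 = 1 - x ^ 2
    linarith
  refine ⟨Complex.arg ⟨y, z⟩, Real.arccos x, (Real.cos_arccos h1 h2).symm, ?_, ?_⟩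
  · rw [Real.sin_arccos, ← hn, mul_comm]
    exact (Complex.norm_mul_cos_arg (⟨y, z⟩ : ℂ)).symm
  · rw [Real.sin_arccos, ← hn, mul_comm]
    exact (Complex.norm_mul_sin_arg (⟨y, z⟩ : ℂ)).symm

/-- the norm of `A v` -/
lemma unitp (A : M3) (v : Fin 3 → ℝ) (hA : A.transpose * A = 1)
    (hv : v 0 ^ 2 + v 1 ^ 2 + v 2 ^ 2 = 1) :
    (A 0 0 * v 0 + A 0 1 * v 1 + A 0 2 * v 2) ^ 2 + (A 1 0 * v 0 + A 1 1 * v 1 + A 1 2 * v 2) ^ 2 +
      (A 2 0 * v 0 + A 2 1 * v 1 + A 2 2 * v 2) ^ 2 = 1 := by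
  have e : ∀ i j : Fin 3, A 0 i * A 0 j + A 1 i * A 1 j + A 2 i * A 2 j = (1 : M3) i j := by
    intro i j
    rw [← hA]
    simp [Matrix.mul_apply, Fin.sum_univ_three, Matrix.transpose_apply]
  have e00 := e 0 0
  have e01 := e 0 1
  have e02 := e 0 2
  have e11 := e 1 1
  have e12 := e 1 2
  have e22 := e 2 2
  simp at e00 e01 e02 e11 e12 e22
  linear_combination v 0 ^ 2 * e00 + v 1 ^ 2 * e11 + v 2 ^ 2 * e22 + 2 * v 0 * v 1 * e01 +
    2 * v 0 * v 2 * e02 + 2 * v 1 * v 2 * e12 + hv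

end EUL

open EUL in
theorem p_EUL (hAVO : S_AVO) (hSPC : S_SPC) (hFIX : S_FIX) : S_EUL := by
  intro A hA
  obtain ⟨v, hv, hlt⟩ := hAVO A hA
  obtain ⟨p, q, hp0, hp1, hp2⟩ := sph (v 0) (v 1) (v 2) hv
  have sm : ∀ i : Fin 3, ContDiff ℝ ∞ fun c => A c i 0 * v 0 + A c i 1 * v 1 + A c i 2 * v 2 :=
    fun i => (((hA.1 i 0).mul contDiff_const).add ((hA.1 i 1).mul contDiff_const)).add
      ((hA.1 i 2).mul contDiff_const)
  obtain ⟨α, β, hα, hβ, hn⟩ := hSPC _ _ _ (sm 0) (sm 1) (sm 2)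
    (fun c => unitp (A c) v (hA.2 c).1 hv) hlt
  have hα' : ContDiff ℝ ∞ fun c => -(α c) := hα.neg
  have hβ' : ContDiff ℝ ∞ fun c => -(β c) := hβ.neg
  have hC : IsPath fun c => R3 (-(β c)) * R1 (-(α c)) * (A c * (R1 p * R3 q)) :=
    mulp (mulp (r3p hβ') (r1p hα')) (mulp hA (mulp (r1p contDiff_const) (r3p contDiff_const)))
  have hcol : ∀ c, ∀ i : Fin 3,
      (A c * (R1 p * R3 q)) i 0 = (R1 (α c) * R3 (β c)) i 0 := by
    intro c i
    obtain ⟨h0, h1, h2⟩ := hn c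
    have e : (A c * (R1 p * R3 q)) i 0 = A c i 0 * v 0 + A c i 1 * v 1 + A c i 2 * v 2 := by
      rw [Matrix.mul_apply, Fin.sum_univ_three, (col p q).1, (col p q).2.1, (col p q).2.2,
        ← hp0, ← hp1, ← hp2]
    rw [e]
    fin_cases i
    · exact h0.trans (col (α c) (β c)).1.symm
    · exact h1.trans (col (α c) (β c)).2.1.symm
    · exact h2.trans (col (α c) (β c)).2.2.symm
  have hinv : ∀ c, R3 (-(β c)) * R1 (-(α c)) * (R1 (α c) * R3 (β c)) = 1 := by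
    intro c
    rw [Matrix.mul_assoc, ← Matrix.mul_assoc (R1 (-(α c))), r1b, Matrix.one_mul, r3b]
  have hinv2 : ∀ c, (R1 (α c) * R3 (β c)) * (R3 (-(β c)) * R1 (-(α c))) = 1 := by
    intro c
    rw [Matrix.mul_assoc, ← Matrix.mul_assoc (R3 (β c)), r3a, Matrix.one_mul, r1a]
  have hfix : ∀ c, ∀ i : Fin 3,
      (R3 (-(β c)) * R1 (-(α c)) * (A c * (R1 p * R3 q))) i 0 = (1 : M3) i 0 := by
    intro c i
    rw [Matrix.mul_apply, ← hinv c, Matrix.mul_apply]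
    exact Finset.sum_congr rfl fun k _ => by rw [hcol c k]
  obtain ⟨γ, hγ, hg⟩ := hFIX _ hC fun c => by
    refine ⟨(hfix c 0).trans ?_, (hfix c 1).trans ?_, (hfix c 2).trans ?_⟩ <;> simp
  refine ⟨α, β, γ, -p, -q, hα, hβ, hγ, fun c => ?_⟩
  rw [← hg c]
  have e1 : (R1 p * R3 q) * (R3 (-q) * R1 (-p)) = 1 := by
    rw [Matrix.mul_assoc, ← Matrix.mul_assoc (R3 q), r3a, Matrix.one_mul, r1a]
  calc A c = 1 * A c * 1 := by rw [Matrix.one_mul, Matrix.mul_one]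
    _ = (R1 (α c) * R3 (β c)) * (R3 (-(β c)) * R1 (-(α c))) * A c *
        ((R1 p * R3 q) * (R3 (-q) * R1 (-p))) := by rw [hinv2, e1]
    _ = R1 (α c) * R3 (β c) * (R3 (-(β c)) * R1 (-(α c)) * (A c * (R1 p * R3 q))) *
        (R3 (-q) * R1 (-p)) := by simp only [Matrix.mul_assoc]

end Pool.Agent.Work.MP_fe1501_st
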