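import Pool.Agent.Work.MP_fe1501_st.Interface

/-! Block FIX (helper87): a smooth path in SO(3) which fixes e₁. -/

set_option autoImplicit false

open Set
open scoped ContDiff

namespace Pool.Agent.Work.MP_fe1501_st

theorem p_FIX (hLIF : S_LIF) : S_FIX := by
  intro C hC h0
  have key : ∀ c, C c 0 1 = 0 ∧ C c 0 2 = 0 ∧ C c 1 1 ^ 2 + C c 2 1 ^ 2 = 1 ∧ C c 2 2 = C c 1 1 ∧
      C c 1 2 = - C c 2 1 := by
    intro c
    obtain ⟨h00, h10, h20⟩ := h0 c
    obtain ⟨hT, hdet⟩ := hC.2 c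
    have e01 := congrFun (congrFun hT 0) 1
    have e02 := congrFun (congrFun hT 0) 2
    have e11 := congrFun (congrFun hT 1) 1
    have e12 := congrFun (congrFun hT 1) 2
    rw [Matrix.mul_apply, Fin.sum_univ_three] at e01 e02 e11 e12
    simp only [Matrix.transpose_apply, h00, h10, h20, zero_mul, one_mul, add_zero] at e01 e02 e11 e12
    rw [Matrix.one_apply_ne (by decide)] at e01 e02 e12
    rw [Matrix.one_apply_eq] at e11
    rw [Matrix.det_fin_three] at hdet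
    rw [e01, e02] at hdet
    rw [e01] at e11
    rw [e01] at e12
    have f1 : C c 1 1 ^ 2 + C c 2 1 ^ 2 = 1 := by linarith [e11]
    have f2 : C c 1 1 * C c 1 2 + C c 2 1 * C c 2 2 = 0 := by linarith [e12]
    have f3 : C c 1 1 * C c 2 2 - C c 1 2 * C c 2 1 = 1 := by
      rw [h00] at hdet
      linarith [hdet]
    refine ⟨e01, e02, f1, ?_, ?_⟩
    · linear_combination (C c 1 1) * f3 + (C c 2 1) * f2 - (C c 2 2) * f1
    · linear_combination (C c 1 1) * f2 - (C c 2 1) * f3 - (C c 1 2) * f1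
  obtain ⟨γ, hγ, hcs⟩ := hLIF (fun c => C c 1 1) (fun c => C c 2 1) (hC.1 1 1) (hC.1 2 1)
    (fun c => (key c).2.2.1)
  refine ⟨γ, hγ, fun c => ?_⟩
  obtain ⟨h00, h10, h20⟩ := h0 c
  obtain ⟨k1, k2, -, k3, k4⟩ := key c
  obtain ⟨hc, hs⟩ := hcs c
  ext i j
  fin_cases i <;> fin_cases j <;> simp [R1, h00, h10, h20, k1, k2, k3, k4, hc, hs]

end Pool.Agent.Work.MP_fe1501_st
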