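import Pool.Agent.Work.MP_fe1501_st.Interface

set_option autoImplicit false

open Set MeasureTheory
open scoped ContDiff

namespace Pool.Agent.Work.MP_fe1501_st

open Pool.Agent.Work.MP_fe1501_h42

namespace GRP

theorem act_0 (B : M3) (x : E4) : act B x 0 = x 0 := rfl
theorem act_1 (B : M3) (x : E4) :
    act B x 1 = B 0 0 * x 1 + B 0 1 * x 2 + B 0 2 * x 3 := rfl
theorem act_2 (B : M3) (x : E4) :
    act B x 2 = B 1 0 * x 1 + B 1 1 * x 2 + B 1 2 * x 3 := rfl
theorem act_3 (B : M3) (x : E4) :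
    act B x 3 = B 2 0 * x 1 + B 2 1 * x 2 + B 2 2 * x 3 := rfl

theorem act_act (B C : M3) (x : E4) : act B (act C x) = act (B * C) x := by
  apply ext4
  · rfl
  · simp only [act_1, act_2, act_3, Matrix.mul_apply, Fin.sum_univ_three]
    ring
  · simp only [act_1, act_2, act_3, Matrix.mul_apply, Fin.sum_univ_three]
    ring
  · simp only [act_1, act_2, act_3, Matrix.mul_apply, Fin.sum_univ_three]
    ring

theorem act_one (x : E4) : act 1 x = x := by
  apply ext4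
  · rfl
  · rw [act_1]
    simp
  · rw [act_2]
    simp
  · rw [act_3]
    simp

theorem act_R1 (t : ℝ) (x : E4) : act (R1 t) x = Rot (((0 : ℤ) : ℝ) * t) (((1 : ℤ) : ℝ) * t) x := by
  apply ext4
  · rw [act_0, Rot_0]
    simp
  · rw [act_1, Rot_1]
    simp [R1]
  · rw [act_2, Rot_2]
    simp [R1]
    ring
  · rw [act_3, Rot_3]
    simp [R1]

theorem act_R2 (t : ℝ) (x : E4) : act (R2 t) x = Pth t x := by
  apply ext4
  · rfl
  · rw [act_1, Pth_1]
    simp [R2]
    ring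
  · rw [act_2, Pth_2]
    simp [R2]
  · rw [act_3, Pth_3]
    simp [R2]

theorem R3_eq (t : ℝ) : R3 t = R2 (Real.pi / 2) * (R1 t * R2 (-(Real.pi / 2))) := by
  ext i j
  fin_cases i <;> fin_cases j <;>
    simp [R1, R2, R3, Matrix.mul_apply, Fin.sum_univ_three]

/-- `Pth t` as a permutation of the sphere -/
noncomputable def pT (t : ℝ) : Equiv.Perm S3 where
  toFun x := ⟨Pth t x, Pth_mem x.2⟩
  invFun x := ⟨Pth (-t) x, Pth_mem x.2⟩
  left_inv x := by
    apply Subtype.ext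
    show Pth (-t) (Pth t x) = x
    rw [Pth_Pth, neg_add_cancel, Pth_zero]
  right_inv x := by
    apply Subtype.ext
    show Pth t (Pth (-t) x) = x
    rw [Pth_Pth, add_neg_cancel, Pth_zero]

theorem InG_pT (s : ℝ) : InG (pT s) := by
  have hF (c : ℝ) : ContDiff ℝ ∞ (fun q : ℝ × E4 => Pth (c * q.1) q.2) :=
    contDiff_Pth (contDiff_const.mul contDiff_fst) contDiff_snd
  refine ⟨fun q => Pth (s * q.1) q.2, fun q => Pth ((-s) * q.1) q.2,
    hF _, hF _, ?_, ?_, ?_, ?_⟩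
  · intro t x hx
    refine ⟨Pth_mem hx, Pth_mem hx, ?_, ?_⟩
    · show Pth ((-s) * t) (Pth (s * t) x) = x
      rw [Pth_Pth, show (-s) * t + s * t = 0 by ring, Pth_zero]
    · show Pth (s * t) (Pth ((-s) * t) x) = x
      rw [Pth_Pth, show s * t + (-s) * t = 0 by ring, Pth_zero]
  · intro t
    exact mp_Pth (s * t)
  · intro x _
    show Pth (s * 0) x = x
    rw [mul_zero, Pth_zero]
  · intro x
    show Pth (s * 1) x = Pth s x
    rw [mul_one]

theorem sph_pT (t : ℝ) : IsSph (fun _ => R2 t) (pT t) := by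
  intro x
  show Pth t x = act (R2 t) x
  rw [act_R2]

theorem mul_sph (A B : ℝ → M3) (g h : Equiv.Perm S3) (hg : IsSph A g) (hh : IsSph B h) :
    IsSph (fun c => A c * B c) (g * h) := by
  intro x
  have h1 : ((h x : S3) : E4) 0 = (x : E4) 0 := by
    rw [hh x]
    rfl
  show ((g (h x) : S3) : E4) = act (A ((x : E4) 0) * B ((x : E4) 0)) x
  rw [hg (h x), h1, hh x, act_act]

theorem invS (α : ℝ → ℝ) : InvS 0 1 (fun x : E4 => α (x 0)) := by
  intro s x _
  show α (Rot (((0 : ℤ) : ℝ) * s) (((1 : ℤ) : ℝ) * s) x 0) = α (x 0)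
  rw [Rot_0]
  simp

theorem sph_tP (α : ℝ → ℝ) :
    IsSph (fun c => R1 (α c)) (tP 0 1 (fun x : E4 => α (x 0)) (invS α)) := by
  intro x
  rw [tP_apply, act_R1]

end GRP

theorem p_GRP : S_GRP := by
  refine ⟨fun α hα => ?_, fun t => ⟨GRP.pT t, GRP.InG_pT t, GRP.sph_pT t⟩, GRP.mul_sph, ?_, ?_⟩
  · have hu : ContDiff ℝ ∞ (fun x : E4 => α (x 0)) := hα.comp (contDiff_coord 0)
    have hG : InG (tP 0 1 (fun x : E4 => α (x 0)) (GRP.invS α)) := InG_tP hu (GRP.invS α)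
    refine ⟨⟨_, hG, GRP.sph_tP α⟩, ⟨GRP.pT (Real.pi / 2) *
      (tP 0 1 (fun x : E4 => α (x 0)) (GRP.invS α) * GRP.pT (-(Real.pi / 2))),
      (GRP.InG_pT _).mul (hG.mul (GRP.InG_pT _)), ?_⟩⟩
    have h1 := GRP.mul_sph _ _ _ _ (GRP.sph_pT (Real.pi / 2))
      (GRP.mul_sph _ _ _ _ (GRP.sph_tP α) (GRP.sph_pT (-(Real.pi / 2))))
    have h2 : (fun c => R3 (α c)) =
        fun c => R2 (Real.pi / 2) * (R1 (α c) * R2 (-(Real.pi / 2))) := by
      funext c
      exact GRP.R3_eq (α c)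
    rw [h2]
    exact h1
  · intro A B g hg hBA x
    have h1 : ((x : S3) : E4) = act (A (((g⁻¹ x : S3) : E4) 0)) (g⁻¹ x : S3) := by
      have h2 := hg (g⁻¹ x)
      have h5 : g (g⁻¹ x) = x := Equiv.apply_symm_apply g x
      rw [h5] at h2
      exact h2
    have h3 : ((x : S3) : E4) 0 = ((g⁻¹ x : S3) : E4) 0 := by
      rw [h1]
      rfl
    rw [h3]
    have h4 : act (B (((g⁻¹ x : S3) : E4) 0)) (x : E4) =
        act (B (((g⁻¹ x : S3) : E4) 0)) (act (A (((g⁻¹ x : S3) : E4) 0)) (g⁻¹ x : S3)) :=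
      congrArg _ h1
    rw [h4, GRP.act_act, hBA, GRP.act_one]
  · intro A g h hg hh
    apply Equiv.ext
    intro x
    apply Subtype.ext
    rw [hg x, hh x]

end Pool.Agent.Work.MP_fe1501_st
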