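import Pool.Agent.Work.MP_fe1501_st.Interface

/-! Block MAIN: every sphere twist is a product of two commutators. -/

set_option autoImplicit false

open Set
open scoped ContDiff

namespace Pool.Agent.Work.MP_fe1501_st

open Pool.Agent.Work.MP_fe1501_h42

theorem p_MAIN (hEUL : S_EUL) (hCOM : S_COM) (hGRP : S_GRP) : S_MAIN := by
  obtain ⟨-, -, hmul, -, -⟩ := hGRP
  intro A hA
  obtain ⟨α, β, γ, p, q, hα, hβ, hγ, e⟩ := hEUL A hA
  obtain ⟨g₁, X, Y, hX, hY, e1, h1⟩ := hCOM α β γ hα hβ hγ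
  obtain ⟨g₂, Z, W, hZ, hW, e2, h2⟩ := hCOM (fun _ => 0) (fun _ => q) (fun _ => p)
    contDiff_const contDiff_const contDiff_const
  have h3 := hmul _ _ _ _ h1 h2
  have hR : R1 0 = 1 := by
    ext i j
    fin_cases i <;> fin_cases j <;> simp [R1]
  refine ⟨g₁ * g₂, ?_, ?_, X, Y, Z, W, hX, hY, hZ, hW, ?_⟩
  · intro x
    rw [h3 x, e ((x : E4) 0)]
    simp only [hR, Matrix.one_mul]
  · rw [e1, e2]
    exact (((hX.mul hY).mul hX.inv).mul hY.inv).mul (((hZ.mul hW).mul hZ.inv).mul hW.inv)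
  · rw [e1, e2]

end Pool.Agent.Work.MP_fe1501_st
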