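import Pool.Agent.Work.MP_fe1501_st.Interface

/-!
# Block SPC: spherical coordinates of a smooth path of unit vectors
-/

set_option autoImplicit false

open Set
open scoped ContDiff

namespace Pool.Agent.Work.MP_fe1501_st

theorem p_SPC (hLIF : S_LIF) : S_SPC := by
  intro n0 n1 n2 h0 h1 h2 hn hlt
  have hpos : ∀ c, 0 < 1 - n0 c ^ 2 := fun c => by linarith [hlt c]
  have hm1 : ∀ c, n0 c ≠ -1 := by
    intro c hc
    have := hlt c
    rw [hc] at this
    norm_num at this
  have hp1 : ∀ c, n0 c ≠ 1 := by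
    intro c hc
    have := hlt c
    rw [hc] at this
    norm_num at this
  have habs : ∀ c, -1 ≤ n0 c ∧ n0 c ≤ 1 := by
    intro c
    have := hlt c
    constructor <;> nlinarith
  set β : ℝ → ℝ := fun c => Real.arccos (n0 c) with hβ
  have hβs : ContDiff ℝ ∞ β := by
    rw [contDiff_iff_contDiffAt]
    intro c
    exact (Real.contDiffAt_arccos (hm1 c) (hp1 c)).comp c h0.contDiffAt
  have hcos : ∀ c, Real.cos (β c) = n0 c := fun c => Real.cos_arccos (habs c).1 (habs c).2
  have hsin : ∀ c, Real.sin (β c) = Real.sqrt (1 - n0 c ^ 2) := fun c => Real.sin_arccos _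
  have hsp : ∀ c, 0 < Real.sin (β c) := by
    intro c
    rw [hsin c]
    exact Real.sqrt_pos.2 (hpos c)
  have hss : ContDiff ℝ ∞ fun c => Real.sin (β c) := Real.contDiff_sin.comp hβs
  have hsq : ∀ c, Real.sin (β c) ^ 2 = 1 - n0 c ^ 2 := by
    intro c
    rw [hsin c, Real.sq_sqrt (hpos c).le]
  obtain ⟨α, hα, hαe⟩ := hLIF (fun c => n1 c / Real.sin (β c)) (fun c => n2 c / Real.sin (β c))
    (h1.div hss fun c => (hsp c).ne') (h2.div hss fun c => (hsp c).ne') (by
      intro c
      have h := hn c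
      have h3 := hsq c
      have h4 := (hsp c).ne'
      rw [div_pow, div_pow, ← add_div, div_eq_one_iff_eq (pow_ne_zero 2 h4), h3]
      linarith)
  refine ⟨α, β, hα, hβs, fun c => ⟨(hcos c).symm, ?_, ?_⟩⟩
  · rw [(hαe c).1, div_mul_cancel₀ _ (hsp c).ne']
  · rw [(hαe c).2, div_mul_cancel₀ _ (hsp c).ne']

end Pool.Agent.Work.MP_fe1501_st
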