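import Pool.Agent.Work.MP_fe1501_st.Interface

/-! # LIF: lifting a path of the circle -/

set_option autoImplicit false

open Set
open scoped ContDiff

namespace Pool.Agent.Work.MP_fe1501_st

theorem p_LIF : S_LIF := by
  intro a b ha hb hab
  have ha1 : ∀ c, HasDerivAt a (deriv a c) c := fun c =>
    ((ha.differentiable (by simp)) c).hasDerivAt
  have hb1 : ∀ c, HasDerivAt b (deriv b c) c := fun c =>
    ((hb.differentiable (by simp)) c).hasDerivAt
  have hda : ContDiff ℝ ∞ (deriv a) := (contDiff_infty_iff_deriv.1 ha).2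
  have hdb : ContDiff ℝ ∞ (deriv b) := (contDiff_infty_iff_deriv.1 hb).2
  have hrel : ∀ c, a c * deriv a c + b c * deriv b c = 0 := by
    intro c
    have h1 : HasDerivAt (fun c => a c ^ 2 + b c ^ 2)
        (2 * a c * deriv a c + 2 * b c * deriv b c) c := by
      have h2 : HasDerivAt (fun c => a c ^ 2 + b c ^ 2)
          ((2 : ℕ) * a c ^ (2 - 1) * deriv a c + (2 : ℕ) * b c ^ (2 - 1) * deriv b c) c :=
        ((ha1 c).pow 2).add ((hb1 c).pow 2)
      have h3 : ((2 : ℕ) * a c ^ (2 - 1) * deriv a c + (2 : ℕ) * b c ^ (2 - 1) * deriv b c : ℝ)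
          = 2 * a c * deriv a c + 2 * b c * deriv b c := by
        norm_num
      rw [h3] at h2
      exact h2
    have h3 : HasDerivAt (fun c => a c ^ 2 + b c ^ 2) 0 c := by
      have h4 : (fun c => a c ^ 2 + b c ^ 2) = fun _ => (1 : ℝ) := funext hab
      rw [h4]
      exact hasDerivAt_const c (1 : ℝ)
    have h5 := h1.unique h3
    linarith
  obtain ⟨f, hf⟩ : ∃ f : ℝ → ℝ, f = fun c => a c * deriv b c - b c * deriv a c := ⟨_, rfl⟩
  have hfs : ContDiff ℝ ∞ f := by
    rw [hf]
    exact (ha.mul hdb).sub (hb.mul hda)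
  have hA : ∀ c, deriv a c = -(b c * f c) := by
    intro c
    rw [hf]
    have h1 := hrel c
    have h2 := hab c
    linear_combination (-a c) * h1 + (-deriv a c) * h2 + (2 * a c) * h1 - (a c) * h1 + (a c) * h1
  have hB : ∀ c, deriv b c = a c * f c := by
    intro c
    rw [hf]
    have h1 := hrel c
    have h2 := hab c
    linear_combination (b c) * h1 - (deriv b c) * h2
  obtain ⟨t0, ht0c, ht0s⟩ : ∃ t0 : ℝ, Real.cos t0 = a 0 ∧ Real.sin t0 = b 0 := by
    have hn : ‖(⟨a 0, b 0⟩ : ℂ)‖ = 1 := by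
      have h1 : ‖(⟨a 0, b 0⟩ : ℂ)‖ ^ 2 = 1 := by
        rw [Complex.sq_norm, Complex.normSq_mk]
        have := hab 0
        nlinarith
      have h2 : 0 ≤ ‖(⟨a 0, b 0⟩ : ℂ)‖ := norm_nonneg _
      nlinarith
    have hne : (⟨a 0, b 0⟩ : ℂ) ≠ 0 := by
      intro h
      rw [h, norm_zero] at hn
      exact zero_ne_one hn
    refine ⟨Complex.arg ⟨a 0, b 0⟩, ?_, ?_⟩
    · rw [Complex.cos_arg hne, hn, div_one]
    · rw [Complex.sin_arg, hn, div_one]
  obtain ⟨θ, hθ⟩ : ∃ θ : ℝ → ℝ, θ = fun c => t0 + ∫ t in (0 : ℝ)..c, f t := ⟨_, rfl⟩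
  have hθd : ∀ c, HasDerivAt θ (f c) c := by
    intro c
    rw [hθ]
    have h1 := intervalIntegral.integral_hasDerivAt_right
      (hfs.continuous.intervalIntegrable 0 c)
      (hfs.continuous.stronglyMeasurableAtFilter _ _) hfs.continuous.continuousAt
    exact h1.const_add t0
  have hθs : ContDiff ℝ ∞ θ := by
    refine contDiff_infty_iff_deriv.2 ⟨fun c => (hθd c).differentiableAt, ?_⟩
    have h1 : deriv θ = f := funext fun c => (hθd c).deriv
    rw [h1]
    exact hfs
  have hθ0 : θ 0 = t0 := by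
    rw [hθ]
    simp
  have hu : ∀ c, HasDerivAt (fun c => a c * Real.cos (θ c) + b c * Real.sin (θ c)) 0 c := by
    intro c
    have h1 : HasDerivAt (fun c => a c * Real.cos (θ c) + b c * Real.sin (θ c))
        ((deriv a c * Real.cos (θ c) + a c * (-Real.sin (θ c) * f c)) +
          (deriv b c * Real.sin (θ c) + b c * (Real.cos (θ c) * f c))) c :=
      ((ha1 c).mul (hθd c).cos).add ((hb1 c).mul (hθd c).sin)
    have h2 : ((deriv a c * Real.cos (θ c) + a c * (-Real.sin (θ c) * f c)) +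
          (deriv b c * Real.sin (θ c) + b c * (Real.cos (θ c) * f c))) = 0 := by
      rw [hA c, hB c]
      ring
    rw [h2] at h1
    exact h1
  have hw : ∀ c, HasDerivAt (fun c => b c * Real.cos (θ c) - a c * Real.sin (θ c)) 0 c := by
    intro c
    have h1 : HasDerivAt (fun c => b c * Real.cos (θ c) - a c * Real.sin (θ c))
        ((deriv b c * Real.cos (θ c) + b c * (-Real.sin (θ c) * f c)) -
          (deriv a c * Real.sin (θ c) + a c * (Real.cos (θ c) * f c))) c :=
      ((hb1 c).mul (hθd c).cos).sub ((ha1 c).mul (hθd c).sin)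
    have h2 : ((deriv b c * Real.cos (θ c) + b c * (-Real.sin (θ c) * f c)) -
          (deriv a c * Real.sin (θ c) + a c * (Real.cos (θ c) * f c))) = 0 := by
      rw [hA c, hB c]
      ring
    rw [h2] at h1
    exact h1
  have hu1 : ∀ c, a c * Real.cos (θ c) + b c * Real.sin (θ c) = 1 := by
    intro c
    have h1 := is_const_of_deriv_eq_zero (fun c => (hu c).differentiableAt)
      (fun c => (hu c).deriv) c 0
    rw [h1, hθ0, ht0c, ht0s]
    have := hab 0
    nlinarith
  have hw1 : ∀ c, b c * Real.cos (θ c) - a c * Real.sin (θ c) = 0 := by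
    intro c
    have h1 := is_const_of_deriv_eq_zero (fun c => (hw c).differentiableAt)
      (fun c => (hw c).deriv) c 0
    rw [h1, hθ0, ht0c, ht0s]
    ring
  refine ⟨θ, hθs, fun c => ⟨?_, ?_⟩⟩
  · have h1 := hu1 c
    have h2 := hw1 c
    have h3 := Real.sin_sq_add_cos_sq (θ c)
    linear_combination (-Real.cos (θ c)) * h1 + (Real.sin (θ c)) * h2 + (a c) * h3
  · have h1 := hu1 c
    have h2 := hw1 c
    have h3 := Real.sin_sq_add_cos_sq (θ c)
    linear_combination (-Real.sin (θ c)) * h1 - (Real.cos (θ c)) * h2 + (b c) * h3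

end Pool.Agent.Work.MP_fe1501_st
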