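import Pool.Agent.Work.MP_fe1501_h42.Grp

/-!
# Sphere twists of the 3-sphere: definitions and block statements (MP_fe1501_gt)

`S³ ⊂ ℝ × ℝ³`; for a smooth path `A` in `SO(3)` the sphere twist is `(x₀, x') ↦ (x₀, A(x₀) x')`.
Every sphere twist is a product of two commutators of `Diff₀(S³, vol)`.
-/

set_option autoImplicit false

open Set
open scoped ContDiff

namespace Pool.Agent.Work.MP_fe1501_st

open Pool.Agent.Work.MP_fe1501_h42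

abbrev M3 : Type := Matrix (Fin 3) (Fin 3) ℝ

/-- `A` is a smooth path in `SO(3)` -/
def IsPath (A : ℝ → M3) : Prop :=
  (∀ i j, ContDiff ℝ ∞ fun c => A c i j) ∧ ∀ c, (A c).transpose * A c = 1 ∧ (A c).det = 1

/-- `(x₀, x') ↦ (x₀, B x')` -/
noncomputable def act (B : M3) (x : E4) : E4 :=
  !₂[x 0, B 0 0 * x 1 + B 0 1 * x 2 + B 0 2 * x 3, B 1 0 * x 1 + B 1 1 * x 2 + B 1 2 * x 3,
    B 2 0 * x 1 + B 2 1 * x 2 + B 2 2 * x 3]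

/-- `g` is the sphere twist `(x₀, x') ↦ (x₀, A(x₀) x')` -/
def IsSph (A : ℝ → M3) (g : Equiv.Perm S3) : Prop :=
  ∀ x : S3, ((g x : S3) : E4) = act (A ((x : E4) 0)) x

noncomputable def R1 (t : ℝ) : M3 := !![1, 0, 0; 0, Real.cos t, -Real.sin t; 0, Real.sin t, Real.cos t]
noncomputable def R2 (t : ℝ) : M3 := !![Real.cos t, 0, -Real.sin t; 0, 1, 0; Real.sin t, 0, Real.cos t]
noncomputable def R3 (t : ℝ) : M3 := !![Real.cos t, -Real.sin t, 0; Real.sin t, Real.cos t, 0; 0, 0, 1]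

/-- the twist of `A` exists and is in `G` -/
def InT (A : ℝ → M3) : Prop := ∃ g : Equiv.Perm S3, InG g ∧ IsSph A g

/-- LIF: lifting a path of the circle. `θ c = θ₀ + ∫ 0..c (a b' - b a')` with `cos θ₀ = a 0`,
`sin θ₀ = b 0` (Complex.arg or Real.arccos). `a' = - b θ'`, `b' = a θ'` (from `a a' + b b' = 0`), so
`a cos θ + b sin θ` and `b cos θ - a sin θ` have derivative `0`; they are `1` and `0`. -/
def S_LIF : Prop := ∀ a b : ℝ → ℝ, ContDiff ℝ ∞ a → ContDiff ℝ ∞ b → (∀ c, a c ^ 2 + b c ^ 2 = 1) →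
  ∃ θ : ℝ → ℝ, ContDiff ℝ ∞ θ ∧ ∀ c, Real.cos (θ c) = a c ∧ Real.sin (θ c) = b c

/-- AVO: a unit vector `v` which no `A c` maps to `± e₁`. The map
`(c, r) ↦ r • (row 0 of A c)`, `ℝ × ℝ → ℝ³`, is `C¹`; the complement of its range is dense
(`ContDiff.dense_compl_range_of_finrank_lt_finrank`), take `w` in it (`w ≠ 0`, as `r = 0` gives `0`)
and `v = w / |w|`. If `(row 0) ⬝ v = ± 1` then `v = ± row 0` (unit vectors), so `w` is in the range. -/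
def S_AVO : Prop := ∀ A : ℝ → M3, IsPath A → ∃ v : Fin 3 → ℝ, v 0 ^ 2 + v 1 ^ 2 + v 2 ^ 2 = 1 ∧
  ∀ c, (A c 0 0 * v 0 + A c 0 1 * v 1 + A c 0 2 * v 2) ^ 2 < 1

/-- SPC (from LIF): spherical coordinates of a smooth path `n` of unit vectors with `n₀² < 1`:
`β = arccos n₀` (smooth, `Real.contDiffAt_arccos`), `sin β = √(1 - n₀²) > 0`, LIF for
`n₁ / sin β`, `n₂ / sin β`. -/
def S_SPC : Prop := ∀ n0 n1 n2 : ℝ → ℝ, ContDiff ℝ ∞ n0 → ContDiff ℝ ∞ n1 → ContDiff ℝ ∞ n2 →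
  (∀ c, n0 c ^ 2 + n1 c ^ 2 + n2 c ^ 2 = 1) → (∀ c, n0 c ^ 2 < 1) →
  ∃ α β : ℝ → ℝ, ContDiff ℝ ∞ α ∧ ContDiff ℝ ∞ β ∧ ∀ c, n0 c = Real.cos (β c) ∧
    n1 c = Real.cos (α c) * Real.sin (β c) ∧ n2 c = Real.sin (α c) * Real.sin (β c)

/-- FIX (from LIF): a smooth path in `SO(3)` which fixes `e₁` is `R1 γ`. The first column is
`e₁`; orthogonality gives that the first row is `e₁` as well, and `C 1 1 = C 2 2`, `C 1 2 = - C 2 1`,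
`C 1 1 ^ 2 + C 2 1 ^ 2 = 1` (det). -/
def S_FIX : Prop := ∀ C : ℝ → M3, IsPath C → (∀ c, C c 0 0 = 1 ∧ C c 1 0 = 0 ∧ C c 2 0 = 0) →
  ∃ γ : ℝ → ℝ, ContDiff ℝ ∞ γ ∧ ∀ c, C c = R1 (γ c)

/-- EUL (from AVO, SPC, FIX): Euler angles. `v` from AVO; constants `p, q` with
`v = (cos q, cos p sin q, sin p sin q) = R1 p R3 q e₁` (spherical coordinates of one vector);
`n c = A c v` is a path of unit vectors with `n₀² < 1`, SPC gives `α, β` with `n c = R1 α R3 β e₁`;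
`C c = R3 (-β) R1 (-α) A c R1 p R3 q` is a smooth path in `SO(3)` fixing `e₁`, FIX gives `γ`;
`A c = R1 α R3 β R1 γ R3 (-q) R1 (-p)`. -/
def S_EUL : Prop := ∀ A : ℝ → M3, IsPath A → ∃ (α β γ : ℝ → ℝ) (p q : ℝ), ContDiff ℝ ∞ α ∧
  ContDiff ℝ ∞ β ∧ ContDiff ℝ ∞ γ ∧
  ∀ c, A c = R1 (α c) * R3 (β c) * R1 (γ c) * (R3 q * R1 p)

/-- GRP: elementary twists are in `G`, and twists form a group. `R1 (α x₀)`: `tP 0 1` (InG_tP);
`R2 t`: `Pth t` (copy InG_cP); `R3 t = R2 (π/2) R1 t R2 (-π/2)`; products: the coordinate `x₀` is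
not changed and `act B (act C x) = act (B * C) x`; inverse: `act Aᵀ (act A x) = x`. -/
def S_GRP : Prop :=
  (∀ α : ℝ → ℝ, ContDiff ℝ ∞ α → InT (fun c => R1 (α c)) ∧ InT (fun c => R3 (α c))) ∧
  (∀ t : ℝ, InT (fun _ => R2 t)) ∧
  (∀ A B : ℝ → M3, ∀ g h : Equiv.Perm S3, IsSph A g → IsSph B h → IsSph (fun c => A c * B c) (g * h)) ∧
  (∀ A B : ℝ → M3, ∀ g : Equiv.Perm S3, IsSph A g → (∀ c, B c * A c = 1) → IsSph B g⁻¹) ∧
  ∀ A : ℝ → M3, ∀ g h : Equiv.Perm S3, IsSph A g → IsSph A h → g = h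

/-- COM (from GRP): `R1 α R3 β R1 γ = [X, Y]`. With `s = (α - γ) / 2`, `m = (α + γ) / 2`:
`X = R1 s (R1 m R3 (β/2)) R1 (-s)`, `Y = R1 s R2 π R1 (-s)`; `R2 π R1 t = R1 (-t) R2 π`,
`R2 π R3 t = R3 (-t) R2 π`. -/
def S_COM : Prop := ∀ α β γ : ℝ → ℝ, ContDiff ℝ ∞ α → ContDiff ℝ ∞ β → ContDiff ℝ ∞ γ →
  ∃ g X Y : Equiv.Perm S3, InG X ∧ InG Y ∧ g = X * Y * X⁻¹ * Y⁻¹ ∧
    IsSph (fun c => R1 (α c) * R3 (β c) * R1 (γ c)) g

/-- the theorem (from EUL, COM, GRP; `R3 q R1 p` is the case of constants `0, q, p` of COM) -/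
def S_MAIN : Prop := ∀ A : ℝ → M3, IsPath A → ∃ g : Equiv.Perm S3, IsSph A g ∧ InG g ∧
  ∃ X Y Z W : Equiv.Perm S3, InG X ∧ InG Y ∧ InG Z ∧ InG W ∧
    g = (X * Y * X⁻¹ * Y⁻¹) * (Z * W * Z⁻¹ * W⁻¹)

end Pool.Agent.Work.MP_fe1501_st
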